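import Pool.Agent.RS.StmtsF

/-!
# Squad RS, row LMK: `lam` is linear over the fractions free of `x_j`
-/

set_option autoImplicit false

namespace Pool.Agent.RS.H79

open MvPolynomial

theorem lmk (h : TxcStmt) (_ : ResStmt) : LmkStmt := by
  intro E _ j q κ c w hκ
  have h1 : toX j κ = Polynomial.C κ := (h E j κ).2.2.2.2 hκ
  have h2 : up j (io E κ) = algebraMap (Polynomial (FF E)) (RatFunc (FF E))
      (Polynomial.C (io E κ)) := by
    rw [up_io]
    have h3 : atX j (io E) κ = Polynomial.C (io E κ) := by
      have h4 : atX j (io E) κ = (toX j κ).map (io E) := rfl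
      rw [h4, h1, Polynomial.map_C]
    rw [h3]
  have key : ∀ w : FF E, lam j q c (io E κ * w) = io E κ * lam j q c w := by
    intro w
    rw [lam_apply, lam_apply, map_mul (up j), h2]
    have h5 : algebraMap (Polynomial (FF E)) (RatFunc (FF E)) (Polynomial.X ^ c) *
        (algebraMap (Polynomial (FF E)) (RatFunc (FF E)) (Polynomial.C (io E κ)) * up j w) =
        (io E κ) • (algebraMap (Polynomial (FF E)) (RatFunc (FF E)) (Polynomial.X ^ c) *
          up j w) := by
      rw [RatFunc.algebraMap_C, RatFunc.smul_eq_C_mul]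
      ring
    rw [h5, map_smul, smul_eq_mul]
  refine ⟨key w, fun hk => ?_⟩
  have hk' : io E κ ≠ 0 := (map_ne_zero_iff _ io_injective).2 hk
  rw [eq_div_iff hk', mul_comm, ← key, mul_div_cancel₀ _ hk']

end Pool.Agent.RS.H79
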