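import Pool.Agent.RS.StmtsT

/-!
# Squad RS, row PFF: partial fractions over a field
-/

set_option autoImplicit false

namespace Pool.Agent.RS.H79

open Polynomial

theorem pff : PffStmt := by
  intro L _ Q b hQ hb
  classical
  obtain ⟨n, hn⟩ : ∃ n, b.natDegree ≤ n := ⟨_, le_rfl⟩
  induction n using Nat.strong_induction_on generalizing b with
  | _ n ih =>
    by_cases hc : IsCoprime b Q
    · exact ⟨0, b, 1, 0, hc, hb, by ring⟩
    · have hg : ¬ IsUnit (EuclideanDomain.gcd b Q) := fun h =>
        hc (EuclideanDomain.gcd_isUnit_iff.1 h)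
      obtain ⟨b', hb'⟩ := EuclideanDomain.gcd_dvd_left b Q
      obtain ⟨h, hh⟩ := EuclideanDomain.gcd_dvd_right b Q
      generalize EuclideanDomain.gcd b Q = g at hg hb' hh
      have hg0 : g ≠ 0 := by
        rintro rfl
        exact hb (by rw [hb', zero_mul])
      have hb0 : b' ≠ 0 := by
        rintro rfl
        exact hb (by rw [hb', mul_zero])
      have hgd : 0 < g.natDegree := by
        rcases Nat.eq_zero_or_pos g.natDegree with h0 | h0
        · exfalso
          apply hg
          rw [Polynomial.isUnit_iff_degree_eq_zero, Polynomial.degree_eq_natDegree hg0, h0]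
          rfl
        · exact h0
      have hd : b.natDegree = g.natDegree + b'.natDegree := by
        rw [hb', Polynomial.natDegree_mul hg0 hb0]
      obtain ⟨M, u, c, c', hu, hu0, he⟩ := ih b'.natDegree (by omega) b' hb0 le_rfl
      have hu1 := hu
      obtain ⟨α, β, hαβ⟩ := hu1
      refine ⟨M + 1, u, h * c * β, h * c * α * Q ^ M + h * c', hu, hu0, ?_⟩
      calc u * Q ^ (M + 1) = Q * (u * Q ^ M) := by ring
        _ = Q * (b' * (c * Q ^ M * (α * u + β * Q) + c' * u)) := by rw [he, hαβ, mul_one]
        _ = (g * h) * (b' * (c * Q ^ M * (α * u + β * Q) + c' * u)) := by rw [← hh]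
        _ = (g * b') * (h * c * β * Q ^ (M + 1) + (h * c * α * Q ^ M + h * c') * u) := by ring
        _ = b * (h * c * β * Q ^ (M + 1) + (h * c * α * Q ^ M + h * c') * u) := by rw [← hb']

end Pool.Agent.RS.H79
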